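import Pool.Agent.Lib.MP_dae8ad_gt.T.Cert
import Pool.Agent.Lib.MP_dae8ad_gt.T.Topo
import Pool.Agent.Lib.MP_dae8ad_gt.A.Alg

open Pool.Agent.AS

theorem Pool.Agent.Results.MP_dae8ad_gt.AlgSlicePattern.result :
    ∃ (top bot : List (L Bool)) (x s : Bool) (r : List Bool),
      Run top [] (x :: s :: (!s) :: r) ∧ IsKnot (top ++ bot) ∧ Slice (top ++ bot) ∧
      ∀ (g : ℕ) (S : List (L (Bool × (Fin g × Bool)))), Bands g S →
        Slice (top ++ shift 1 (two s (knot g S)) ++ bot) → Metabolic g (seifert S) := by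
  refine ⟨topB, botB, true, false, [false, true, false], run_R0 yT, knot_PU, slice_PU,
    fun g S hS h => ?_⟩
  have e : topB ++ shift 1 (two false (knot g S)) ++ botB = KG yT S := by
    simp only [KG, KB, topB, botB, P1_yT, P3_yT, two_knot]
    rfl
  obtain ⟨X, _, _, h, γ, hg, hf, h1, hP, hO⟩ := topo hS (e ▸ h)
  exact alg h γ hg hf h1 hP _ (plan hS.1) hO
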