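import Pool.Agent.Lib.MP_dae8ad_gt.H.Main

open Pool.Agent.HT

theorem Pool.Agent.Results.MP_dae8ad_gt.StableNull.result :
    Null (N ∪ S) tau 1 0 ∧
      ∀ (E : Finset (List A)) (ψ : A → A → ℤ), Ext E ψ → Null (N ∪ E) tau 1 0 →
        ∀ ε : ℝ, 0 < ε → ∃ n c : ℕ, (c : ℝ) < ε * n ∧ Null (E ∪ S) ψ n c :=
  main
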